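import Pool.Agent.W945.Lc.Stm

/-!
Project LC, part SPEC: the spectral norm of decision trees.
-/

namespace Pool.Agent.W238.Lc.SPEC

open Finset Pool.Agent.W945.Pw Pool.Agent.W945.Lc

theorem sg_mul_self (b : Bool) : sg b * sg b = 1 := by
  cases b <;> simp [sg]

theorem sg_mul_chi {n : ℕ} (i : Fin n) (S : Finset (Fin n)) (x : Fin n → Bool) :
    sg (x i) * chi S x = chi (symmDiff S {i}) x := by
  by_cases h : i ∈ S
  · have h1 : symmDiff S {i} = S.erase i := by
      ext j
      rw [mem_symmDiff, mem_erase, mem_singleton]
      constructor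
      · rintro (⟨h1, h2⟩ | ⟨h1, h2⟩)
        · exact ⟨h2, h1⟩
        · exact absurd (h1 ▸ h) h2
      · rintro ⟨h1, h2⟩
        exact Or.inl ⟨h2, h1⟩
    rw [h1, chi, chi, ← Finset.mul_prod_erase S (fun i => sg (x i)) h, ← mul_assoc, sg_mul_self,
      one_mul]
  · have h1 : symmDiff S {i} = insert i S := by
      ext j
      rw [mem_symmDiff, mem_insert, mem_singleton]
      constructor
      · rintro (⟨h1, h2⟩ | ⟨h1, h2⟩)
        · exact Or.inr h1
        · exact Or.inl h1
      · rintro (h1 | h1)
        · refine Or.inr ⟨h1, ?_⟩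
          rw [h1]; exact h
        · refine Or.inl ⟨h1, ?_⟩
          rintro rfl
          exact h h1
    rw [h1, chi, chi, Finset.prod_insert h]

/-- the involution -/
def inv {n : ℕ} (i : Fin n) : Equiv.Perm (Finset (Fin n)) :=
  Function.Involutive.toPerm (fun S => symmDiff S {i}) (fun S => by
    show symmDiff (symmDiff S {i}) {i} = S
    rw [symmDiff_assoc, symmDiff_self]; simp)

theorem inv_apply {n : ℕ} (i : Fin n) (S : Finset (Fin n)) : inv i S = symmDiff S {i} := rfl

theorem inv_inv {n : ℕ} (i : Fin n) (S : Finset (Fin n)) :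
    symmDiff (symmDiff S {i}) {i} = S := by
  rw [symmDiff_assoc, symmDiff_self]; simp

theorem sum_shift {n : ℕ} (i : Fin n) (c : Finset (Fin n) → ℝ) (x : Fin n → Bool) :
    ∑ S, c (symmDiff S {i}) * chi S x = sg (x i) * ∑ S, c S * chi S x := by
  rw [← Equiv.sum_comp (inv i), Finset.mul_sum]
  apply Finset.sum_congr rfl
  intro S _
  rw [inv_apply, inv_inv, ← sg_mul_chi]
  ring

theorem sum_abs_shift {n : ℕ} (i : Fin n) (c : Finset (Fin n) → ℝ) :
    ∑ S, |c (symmDiff S {i})| = ∑ S, |c S| := by
  rw [← Equiv.sum_comp (inv i)]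
  apply Finset.sum_congr rfl
  intro S _
  rw [inv_apply, inv_inv]

theorem main : SPEC.Stm := by
  intro n T
  induction T with
  | leaf b =>
    intro K _
    refine ⟨fun S => if S = ∅ then (if b = true then 1 else 0) else 0, ?_, ?_⟩
    · intro x
      rw [Finset.sum_eq_single ∅]
      · cases b <;> simp [DT.eval, chi]
      · intro S _ hS
        simp [hS]
      · intro h
        exact absurd (mem_univ _) h
    · rw [Finset.sum_eq_single ∅]
      · have h1 : (1 : ℝ) ≤ 2 ^ K := one_le_pow₀ (by norm_num)
        cases b
        · simp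
        · simpa using h1
      · intro S _ hS
        simp [hS]
      · intro h
        exact absurd (mem_univ _) h
  | node i l r ihl ihr =>
    intro K hK
    rw [DT.depth] at hK
    obtain ⟨K', rfl⟩ : ∃ K', K = K' + 1 := ⟨K - 1, by omega⟩
    have hl : l.depth ≤ K' := by
      have := le_max_left l.depth r.depth
      omega
    have hr : r.depth ≤ K' := by
      have := le_max_right l.depth r.depth
      omega
    obtain ⟨cl, hcl, hcl2⟩ := ihl K' hl
    obtain ⟨cr, hcr, hcr2⟩ := ihr K' hr
    refine ⟨fun S => (cl S + cr S) / 2 + (cl (symmDiff S {i}) - cr (symmDiff S {i})) / 2, ?_, ?_⟩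
    · intro x
      have h1 : ∑ S, ((cl S + cr S) / 2 + (cl (symmDiff S {i}) - cr (symmDiff S {i})) / 2) * chi S x
          = (∑ S, cl S * chi S x + ∑ S, cr S * chi S x) / 2 +
            (∑ S, cl (symmDiff S {i}) * chi S x - ∑ S, cr (symmDiff S {i}) * chi S x) / 2 := by
        rw [← Finset.sum_add_distrib, ← Finset.sum_sub_distrib, Finset.sum_div, Finset.sum_div,
          ← Finset.sum_add_distrib]
        apply Finset.sum_congr rfl
        intro S _
        ring
      rw [h1, sum_shift, sum_shift, ← hcl x, ← hcr x, DT.eval]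
      rcases Bool.eq_false_or_eq_true (x i) with h | h
      · rw [h]
        simp only [sg, if_true]
        ring
      · rw [h]
        simp only [sg, Bool.false_eq_true, if_false]
        ring
    · calc ∑ S, |(cl S + cr S) / 2 + (cl (symmDiff S {i}) - cr (symmDiff S {i})) / 2|
          ≤ ∑ S, ((|cl S| + |cr S|) / 2 + (|cl (symmDiff S {i})| + |cr (symmDiff S {i})|) / 2) := by
            apply Finset.sum_le_sum
            intro S _
            have h1 := abs_add_le ((cl S + cr S) / 2)
              ((cl (symmDiff S {i}) - cr (symmDiff S {i})) / 2)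
            have h2 : |(cl S + cr S) / 2| ≤ (|cl S| + |cr S|) / 2 := by
              rw [abs_div, abs_two]
              have := abs_add_le (cl S) (cr S)
              linarith
            have h3 : |(cl (symmDiff S {i}) - cr (symmDiff S {i})) / 2| ≤
                (|cl (symmDiff S {i})| + |cr (symmDiff S {i})|) / 2 := by
              rw [abs_div, abs_two]
              have := abs_sub (cl (symmDiff S {i})) (cr (symmDiff S {i}))
              linarith
            linarith
        _ = ∑ S, |cl S| + ∑ S, |cr S| := by
            rw [Finset.sum_add_distrib, ← Finset.sum_div, ← Finset.sum_div,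
              Finset.sum_add_distrib, Finset.sum_add_distrib, sum_abs_shift, sum_abs_shift]
            ring
        _ ≤ 2 ^ (K' + 1) := by
            rw [pow_succ]
            linarith

end Pool.Agent.W238.Lc.SPEC
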